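import Pool.Agent.Y64.RR.Stm

/-!
# Cotangent sums (project RR of helper64)
-/

set_option autoImplicit false

namespace Pool.Agent.Y694.RR

open Pool.Agent.Y64.RR Finset

/-- The inverse of `c` modulo `m` gives a number with the same quality of approximation. -/
theorem bad_inv {E : ℝ} {m : ℕ} {c cb : ℤ} (hE : 1 ≤ E) (hm : 1 ≤ m) (k : ℤ)
    (hk : c * cb - 1 = m * k) (h : Bad E m (c / m)) : Bad E m (cb / m) := by
  intro b hb1 hbm a
  have hmR : (0:ℝ) < m := by exact_mod_cast hm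
  have hbR : (1:ℝ) ≤ b := by exact_mod_cast hb1
  obtain ⟨L, hL⟩ : ∃ L : ℤ, L = b * cb - a * m := ⟨_, rfl⟩
  have hLR : (b:ℝ) * (cb / m) - a = L / m := by
    rw [hL]; push_cast; field_simp
  have hLc : L * c = b + m * (b * k - a * c) := by
    rw [hL]; linear_combination (b : ℤ) * hk
  have hLcR : (L:ℝ) * c = b + m * (b * k - a * c) := by exact_mod_cast hLc
  have hL0 : L ≠ 0 := by
    intro h0
    rw [h0, zero_mul] at hLc
    have hd : (m : ℤ) ∣ b := ⟨-(b * k - a * c), by linear_combination -hLc⟩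
    have := Int.le_of_dvd (by exact_mod_cast hb1) hd
    have : m ≤ b := by exact_mod_cast this
    omega
  have hEb : (1:ℝ) ≤ E * b := by nlinarith
  rw [hLR, abs_div, abs_of_pos hmR]
  rcases lt_or_ge |L| (m : ℤ) with hlt | hge
  · rw [abs_lt] at hlt
    rcases lt_or_gt_of_ne hL0 with hneg | hpos
    · have h1 := h (-L).toNat (by omega) (by omega) (-(b * k - a * c))
      have hc : (((-L).toNat : ℕ) : ℝ) = -(L:ℝ) := by
        have : (((-L).toNat : ℕ) : ℤ) = -L := Int.toNat_of_nonneg (by omega)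
        exact_mod_cast this
      have he : -(L:ℝ) * (c / m) - ((-(b * k - a * c) : ℤ) : ℝ) = -(b / m) := by
        push_cast
        field_simp
        linear_combination -hLcR
      rw [hc, he, abs_neg, abs_of_nonneg (by positivity)] at h1
      have hLn : (0:ℝ) < -(L:ℝ) := by
        have : (0:ℤ) < -L := by omega
        exact_mod_cast this
      rw [abs_of_neg (by linarith)]
      rw [div_le_div_iff₀ (by positivity) hmR] at h1 ⊢
      nlinarith
    · have h1 := h L.toNat (by omega) (by omega) (b * k - a * c)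
      have hc : ((L.toNat : ℕ) : ℝ) = (L:ℝ) := by
        have : ((L.toNat : ℕ) : ℤ) = L := Int.toNat_of_nonneg (by omega)
        exact_mod_cast this
      have he : (L:ℝ) * (c / m) - (((b * k - a * c) : ℤ) : ℝ) = b / m := by
        push_cast
        field_simp
        linear_combination hLcR
      rw [hc, he, abs_of_nonneg (by positivity)] at h1
      have hLn : (0:ℝ) < (L:ℝ) := by exact_mod_cast hpos
      rw [abs_of_pos hLn]
      rw [div_le_div_iff₀ (by positivity) hmR] at h1 ⊢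
      nlinarith
  · have h1 : (m:ℝ) ≤ |(L:ℝ)| := by exact_mod_cast hge
    calc 1 / (E * b) ≤ 1 := by rw [div_le_one (by linarith)]; exact hEb
      _ ≤ |(L:ℝ)| / m := by rw [le_div_iff₀ hmR]; linarith

theorem JJ_bounds (c : ℤ) (m i : ℕ) (hm : 1 ≤ m) : -(m:ℤ) ≤ 2 * JJ c m i ∧ 2 * JJ c m i < m := by
  unfold JJ
  have h1 := Int.bmod_lt (x := (i:ℤ) * c) (m := m) (by omega)
  have h2 := Int.le_bmod (x := (i:ℤ) * c) (m := m) (by omega)
  constructor
  · omega
  · omega

theorem JJ_mod (c : ℤ) (m i : ℕ) : JJ c m i % m = (i * c) % m := by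
  unfold JJ
  exact Int.bmod_emod

theorem card_JJ (m : ℕ) (c cb : ℤ) (hm : 1 ≤ m) (k : ℤ) (hk : c * cb - 1 = m * k) (l : ℕ)
    (hl : l ≤ m) (a b : ℤ) (ha : -(m:ℤ) ≤ 2 * a) (hb : 2 * (b - 1) < m) :
    ((Ico 1 l).filter (fun i : ℕ => a ≤ JJ c m i ∧ JJ c m i < b)).card =
      ((Ico a b).filter (fun j : ℤ => (1 / m : ℝ) ≤ Int.fract ((j : ℝ) * ((cb : ℝ) / m) + 0) ∧
        Int.fract ((j : ℝ) * ((cb : ℝ) / m) + 0) < (l / m : ℝ))).card := by
  have hmR : (0:ℝ) < m := by exact_mod_cast hm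
  have hfr : ∀ j : ℤ, Int.fract ((j:ℝ) * (cb / m) + 0) = ((j * cb % m : ℤ) : ℝ) / m := by
    intro j
    have := Int.fract_div_intCast_eq_div_intCast_mod (k := ℝ) (m := j * cb) (n := m)
    rw [← this]
    congr 1
    push_cast
    ring
  have hmem : ∀ j : ℤ, ((1 / m : ℝ) ≤ Int.fract ((j : ℝ) * ((cb : ℝ) / m) + 0) ∧
        Int.fract ((j : ℝ) * ((cb : ℝ) / m) + 0) < (l / m : ℝ)) ↔ (1 ≤ j * cb % m ∧ j * cb % m < l) := by
    intro j
    rw [hfr, div_le_div_iff_of_pos_right hmR, div_lt_div_iff_of_pos_right hmR]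
    constructor
    · rintro ⟨h1, h2⟩
      exact ⟨by exact_mod_cast h1, by exact_mod_cast h2⟩
    · rintro ⟨h1, h2⟩
      exact ⟨by exact_mod_cast h1, by exact_mod_cast h2⟩
  have hA : ∀ i : ℕ, i < m → JJ c m i * cb % m = i := by
    intro i hi
    have h1 : JJ c m i ≡ i * c [ZMOD m] := JJ_mod c m i
    have h2 : JJ c m i * cb ≡ i [ZMOD m] := by
      calc JJ c m i * cb ≡ i * c * cb [ZMOD m] := h1.mul_right _
        _ ≡ i [ZMOD m] := by
          apply Int.ModEq.symm
          rw [Int.modEq_iff_dvd]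
          exact ⟨i * k, by linear_combination (i : ℤ) * hk⟩
    have h3 : JJ c m i * cb % m = (i:ℤ) % m := h2
    rw [h3]
    exact Int.emod_eq_of_lt (by omega) (by omega)
  have hB : ∀ j : ℤ, a ≤ j → j < b → 0 ≤ j * cb % m → JJ c m (j * cb % m).toNat = j := by
    intro j hj1 hj2 hj3
    unfold JJ
    rw [Int.toNat_of_nonneg hj3]
    have h2 : (j * cb % m) * c ≡ j [ZMOD m] := by
      calc (j * cb % m) * c ≡ (j * cb) * c [ZMOD m] := (Int.mod_modEq _ _).mul_right _
        _ ≡ j [ZMOD m] := by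
          apply Int.ModEq.symm
          rw [Int.modEq_iff_dvd]
          exact ⟨j * k, by linear_combination j * hk⟩
    have h3 : Int.bmod ((j * cb % m) * c) m = Int.bmod j m := by
      have := h2
      unfold Int.ModEq at this
      rw [← Int.emod_bmod (x := (j * cb % m) * c), this, Int.emod_bmod]
    rw [h3]
    apply Int.bmod_eq_of_le <;> omega
  refine Finset.card_nbij' (fun i => JJ c m i) (fun j => (j * cb % m).toNat) ?_ ?_ ?_ ?_
  · intro i hi
    simp only [Finset.coe_filter, Set.mem_ofPred_eq, Finset.mem_Ico] at hi ⊢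
    rw [hmem]
    rw [hA i (by omega)]
    refine ⟨⟨hi.2.1, hi.2.2⟩, ?_, ?_⟩ <;> omega
  · intro j hj
    simp only [Finset.coe_filter, Set.mem_ofPred_eq, Finset.mem_Ico] at hj ⊢
    rw [hmem] at hj
    rw [hB j hj.1.1 hj.1.2 (by omega)]
    refine ⟨⟨?_, ?_⟩, hj.1.1, hj.1.2⟩ <;> omega
  · intro i hi
    simp only [Finset.coe_filter, Set.mem_ofPred_eq, Finset.mem_Ico] at hi
    simp only
    rw [hA i (by omega)]
    simp
  · intro j hj
    simp only [Finset.coe_filter, Set.mem_ofPred_eq, Finset.mem_Ico] at hj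
    rw [hmem] at hj
    exact hB j hj.1.1 hj.1.2 (by omega)

/-- The cotangent, cut off at `m / 2`. -/
noncomputable def gco (m N : ℕ) : ℝ :=
  if 2 * N < m then Real.cos (Real.pi * (N / m)) / Real.sin (Real.pi * (N / m)) else 0

theorem gco_zero {m N : ℕ} (h : m ≤ 2 * N) : gco m N = 0 := by
  unfold gco; rw [if_neg (by omega)]

theorem sin_lower {m N : ℕ} (hm : 1 ≤ m) (hN : 2 * N ≤ m) :
    2 * (N:ℝ) / m ≤ Real.sin (Real.pi * (N / m)) := by
  have hmR : (0:ℝ) < m := by exact_mod_cast hm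
  have hNR : 2 * (N:ℝ) ≤ m := by exact_mod_cast hN
  have h1 : Real.pi * ((N:ℝ) / m) ≤ Real.pi / 2 := by
    have : (N:ℝ) / m ≤ 1 / 2 := by rw [div_le_div_iff₀ hmR (by norm_num)]; linarith
    nlinarith [Real.pi_pos]
  have h2 := Real.mul_le_sin (x := Real.pi * ((N:ℝ) / m)) (by positivity) h1
  calc 2 * (N:ℝ) / m = 2 / Real.pi * (Real.pi * ((N:ℝ) / m)) := by
        have := Real.pi_ne_zero
        field_simp
    _ ≤ _ := h2

theorem gco_diff {m N : ℕ} (hN : 1 ≤ N) (hNm : 2 * N < m) :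
    |gco m N - gco m (N + 1)| ≤ Real.pi * m / (4 * N ^ 2) := by
  have hm : 1 ≤ m := by omega
  have hmR : (0:ℝ) < m := by exact_mod_cast hm
  have hNR : (1:ℝ) ≤ N := by exact_mod_cast hN
  have h2N : 2 * (N:ℝ) < m := by exact_mod_cast hNm
  have hs := sin_lower hm hNm.le
  have hpi := Real.pi_pos
  have hspos : 0 < Real.sin (Real.pi * ((N:ℝ) / m)) := lt_of_lt_of_le (by positivity) hs
  rcases lt_or_ge (2 * (N + 1)) m with h | h
  · have hs1 := sin_lower hm h.le
    have hs1pos : 0 < Real.sin (Real.pi * (((N + 1 : ℕ):ℝ) / m)) :=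
      lt_of_lt_of_le (by positivity) hs1
    unfold gco
    rw [if_pos hNm, if_pos h]
    have e : Real.cos (Real.pi * ((N:ℝ) / m)) / Real.sin (Real.pi * ((N:ℝ) / m)) -
        Real.cos (Real.pi * (((N + 1 : ℕ):ℝ) / m)) / Real.sin (Real.pi * (((N + 1 : ℕ):ℝ) / m)) =
        Real.sin (Real.pi / m) / (Real.sin (Real.pi * ((N:ℝ) / m)) *
          Real.sin (Real.pi * (((N + 1 : ℕ):ℝ) / m))) := by
      have hd : Real.pi / m = Real.pi * (((N + 1 : ℕ):ℝ) / m) - Real.pi * ((N:ℝ) / m) := by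
        push_cast; field_simp; ring
      rw [hd, Real.sin_sub, div_sub_div _ _ hspos.ne' hs1pos.ne']
      congr 1
      ring
    rw [e]
    have hsm : 0 ≤ Real.sin (Real.pi / m) := by
      apply Real.sin_nonneg_of_nonneg_of_le_pi (by positivity)
      rw [div_le_iff₀ hmR]
      have : (1:ℝ) ≤ m := by exact_mod_cast hm
      nlinarith
    have hsm2 : Real.sin (Real.pi / m) ≤ Real.pi / m := Real.sin_le (by positivity)
    rw [abs_of_nonneg (by positivity)]
    have hprod : (2 * (N:ℝ) / m) * (2 * (N:ℝ) / m) ≤ Real.sin (Real.pi * ((N:ℝ) / m)) *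
          Real.sin (Real.pi * (((N + 1 : ℕ):ℝ) / m)) := by
      apply mul_le_mul hs _ (by positivity) hspos.le
      refine le_trans ?_ hs1
      apply div_le_div_of_nonneg_right _ hmR.le
      push_cast; linarith
    calc Real.sin (Real.pi / m) / (Real.sin (Real.pi * ((N:ℝ) / m)) *
          Real.sin (Real.pi * (((N + 1 : ℕ):ℝ) / m)))
        ≤ (Real.pi / m) / ((2 * (N:ℝ) / m) * (2 * (N:ℝ) / m)) := by
          apply div_le_div₀ (by positivity) hsm2 (by positivity) hprod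
      _ = Real.pi * m / (4 * N ^ 2) := by field_simp; ring
  · rw [gco_zero (by omega : m ≤ 2 * (N + 1)), sub_zero]
    unfold gco
    rw [if_pos hNm]
    have hc : Real.cos (Real.pi * ((N:ℝ) / m)) = Real.sin (Real.pi / 2 - Real.pi * ((N:ℝ) / m)) := by
      rw [Real.sin_pi_div_two_sub]
    have hR : (m:ℝ) ≤ 2 * (N + 1) := by exact_mod_cast h
    have hx0 : 0 ≤ Real.pi / 2 - Real.pi * ((N:ℝ) / m) := by
      have : (N:ℝ) / m ≤ 1 / 2 := by rw [div_le_div_iff₀ hmR (by norm_num)]; linarith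
      nlinarith
    have hx1 : Real.pi / 2 - Real.pi * ((N:ℝ) / m) ≤ Real.pi / m := by
      have : 1 / 2 - (N:ℝ) / m ≤ 1 / m := by
        rw [div_sub_div _ _ (by norm_num) hmR.ne', div_le_div_iff₀ (by positivity) hmR]
        nlinarith
      calc Real.pi / 2 - Real.pi * ((N:ℝ) / m) = Real.pi * (1 / 2 - (N:ℝ) / m) := by ring
        _ ≤ Real.pi * (1 / m) := by apply mul_le_mul_of_nonneg_left this hpi.le
        _ = Real.pi / m := by ring
    have hcl : Real.cos (Real.pi * ((N:ℝ) / m)) ≤ Real.pi / m := by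
      rw [hc]; exact (Real.sin_le hx0).trans hx1
    have hc0 : 0 ≤ Real.cos (Real.pi * ((N:ℝ) / m)) := by
      rw [hc]
      apply Real.sin_nonneg_of_nonneg_of_le_pi hx0
      have : 0 ≤ Real.pi * ((N:ℝ) / m) := by positivity
      linarith
    rw [abs_of_nonneg (by positivity)]
    calc Real.cos (Real.pi * ((N:ℝ) / m)) / Real.sin (Real.pi * ((N:ℝ) / m))
        ≤ (Real.pi / m) / (2 * (N:ℝ) / m) := div_le_div₀ (by positivity) hcl (by positivity) hs
      _ = Real.pi * (2 * N) / (4 * N ^ 2) := by field_simp; ring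
      _ ≤ Real.pi * m / (4 * N ^ 2) := by
          apply div_le_div_of_nonneg_right _ (by positivity)
          apply mul_le_mul_of_nonneg_left h2N.le hpi.le

theorem tel_sum (m J : ℕ) (hJ : J ≤ m) :
    ∑ N ∈ Ico J m, (gco m N - gco m (N + 1)) = gco m J := by
  have h : ∀ n : ℕ, J ≤ n → ∑ N ∈ Ico J n, (gco m N - gco m (N + 1)) = gco m J - gco m n := by
    intro n hn
    induction n, hn using Nat.le_induction with
    | base => simp
    | succ n hn ih => rw [Finset.sum_Ico_succ_top hn, ih]; ring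
  rw [h m hJ, gco_zero (by omega : m ≤ 2 * m), sub_zero]

theorem tel (m Y : ℕ) (A : Finset ℕ) (J : ℕ → ℤ) (hJ : ∀ i ∈ A, 2 * J i ≤ m) :
    ∑ i ∈ A.filter (fun i => (Y:ℤ) < J i), gco m (J i).toNat =
      ∑ N ∈ Ico (Y + 1) m, (gco m N - gco m (N + 1)) *
        ((A.filter (fun i => (Y:ℤ) < J i ∧ J i ≤ N)).card : ℝ) := by
  have h1 : ∀ i ∈ A.filter (fun i => (Y:ℤ) < J i), gco m (J i).toNat =
      ∑ N ∈ Ico (Y + 1) m, if J i ≤ N then (gco m N - gco m (N + 1)) else 0 := by
    intro i hi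
    rw [Finset.mem_filter] at hi
    have hJi := hJ i hi.1
    rw [← tel_sum m (J i).toNat (by omega), ← Finset.sum_filter]
    apply Finset.sum_congr _ (fun _ _ => rfl)
    ext N
    simp only [Finset.mem_filter, Finset.mem_Ico]
    omega
  rw [Finset.sum_congr rfl h1, Finset.sum_comm]
  apply Finset.sum_congr rfl
  intro N _
  rw [← Finset.sum_filter, Finset.filter_filter, Finset.sum_const, nsmul_eq_mul, mul_comm]

theorem key_inv (a b : ℝ) (ha : 0 < a) (hab : a ≤ b) (h : b ^ 2 = a ^ 2 + 1) :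
    1 / (b ^ 2 * b) ≤ 2 / a - 2 / b := by
  have hb : 0 < b := by linarith
  rw [div_sub_div _ _ ha.ne' hb.ne', div_le_div_iff₀ (by positivity) (by positivity)]
  have h3 : (b - a) * (b + a) = 1 := by linear_combination h
  have h4 : 1 ≤ (b - a) * (2 * b) := by
    rw [← h3]
    apply mul_le_mul_of_nonneg_left _ (by linarith)
    linarith
  have h6 : a * b ≤ b ^ 2 := by nlinarith
  have h7 : b ^ 2 * 1 ≤ b ^ 2 * ((b - a) * (2 * b)) :=
    mul_le_mul_of_nonneg_left h4 (by positivity)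
  nlinarith

theorem sum_inv (Y M : ℕ) (hY : 1 ≤ Y) :
    ∑ N ∈ Ico (Y + 1) M, 1 / ((N:ℝ) * √N) ≤ 2 / √Y := by
  have h : ∀ n : ℕ, Y + 1 ≤ n → ∑ N ∈ Ico (Y + 1) n, 1 / ((N:ℝ) * √N) ≤
      2 / √Y - 2 / √((n - 1 : ℕ) : ℝ) := by
    intro n hn
    induction n, hn using Nat.le_induction with
    | base => simp
    | succ n hn ih =>
      rw [Finset.sum_Ico_succ_top hn]
      have hn1 : (1:ℝ) ≤ ((n - 1 : ℕ) : ℝ) := by exact_mod_cast (by omega : 1 ≤ n - 1)
      have hnn : (n:ℝ) = ((n - 1 : ℕ) : ℝ) + 1 := by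
        have : n = (n - 1) + 1 := by omega
        exact_mod_cast this
      have ha : 0 < √((n - 1 : ℕ) : ℝ) := Real.sqrt_pos.mpr (by linarith)
      have ha2 : √((n - 1 : ℕ) : ℝ) ^ 2 = ((n - 1 : ℕ) : ℝ) := Real.sq_sqrt (by linarith)
      have hb2 : √(n : ℝ) ^ 2 = (n : ℝ) := Real.sq_sqrt (by linarith)
      have hab : √((n - 1 : ℕ) : ℝ) ≤ √(n : ℝ) := Real.sqrt_le_sqrt (by linarith)
      have key := key_inv _ _ ha hab (by rw [ha2, hb2]; exact hnn)
      rw [hb2] at key
      have : (n + 1 - 1 : ℕ) = n := by omega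
      rw [this]
      linarith
  rcases le_or_gt (Y + 1) M with hM | hM
  · have := h M hM
    have h2 : 0 ≤ 2 / √((M - 1 : ℕ) : ℝ) := by positivity
    linarith
  · rw [Finset.Ico_eq_empty (by omega)]
    simp only [Finset.sum_empty]
    positivity

theorem f_pos (m : ℕ) (J : ℤ) (h0 : 0 < J) (h1 : 2 * J < m) :
    Real.cos (Real.pi * ((J:ℝ) / m)) / Real.sin (Real.pi * ((J:ℝ) / m)) = gco m J.toNat := by
  have hc : ((J.toNat : ℕ) : ℝ) = (J:ℝ) := by
    have : ((J.toNat : ℕ) : ℤ) = J := Int.toNat_of_nonneg (by omega)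
    exact_mod_cast this
  unfold gco
  rw [if_pos (by omega), hc]

theorem f_neg (m : ℕ) (hm : 1 ≤ m) (J : ℤ) (h0 : 0 < -J) (h1 : -(m:ℤ) ≤ 2 * J) :
    Real.cos (Real.pi * ((J:ℝ) / m)) / Real.sin (Real.pi * ((J:ℝ) / m)) =
      -gco m (-J).toNat := by
  have hmR : (0:ℝ) < m := by exact_mod_cast hm
  have hc : (((-J).toNat : ℕ) : ℝ) = -(J:ℝ) := by
    have : (((-J).toNat : ℕ) : ℤ) = -J := Int.toNat_of_nonneg (by omega)
    exact_mod_cast this
  rcases lt_or_eq_of_le h1 with h | h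
  · unfold gco
    rw [if_pos (by omega), hc]
    have e : Real.pi * ((J:ℝ) / m) = -(Real.pi * (-(J:ℝ) / m)) := by ring
    rw [e, Real.cos_neg, Real.sin_neg, div_neg]
  · rw [gco_zero (by omega : m ≤ 2 * (-J).toNat)]
    have hJ : (J:ℝ) = -(m:ℝ) / 2 := by
      have : -(m:ℝ) = 2 * (J:ℝ) := by exact_mod_cast h
      linarith
    have e : Real.pi * ((J:ℝ) / m) = -(Real.pi / 2) := by
      rw [hJ]; field_simp
    rw [e, Real.cos_neg, Real.cos_pi_div_two]
    simp

theorem stCot : StCnt → StCot := by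
  rintro ⟨C, hC, hcnt⟩
  refine ⟨Real.pi * C, by positivity, ?_⟩
  intro E m c hE hm hcop hbad Y l hY hl
  obtain ⟨u, v, huv⟩ := hcop
  have hk : c * u - 1 = m * (-v) := by linear_combination huv
  have hbad' := bad_inv hE hm (-v) hk hbad
  have hmR : (0:ℝ) < m := by exact_mod_cast hm
  have hE0 : 0 < E := by linarith
  obtain ⟨P, hP⟩ : ∃ P : ℕ → ℝ, P = fun N : ℕ =>
    (((Ico 1 l).filter (fun i => (Y:ℤ) < JJ c m i ∧ JJ c m i ≤ (N:ℤ))).card : ℝ) := ⟨_, rfl⟩
  obtain ⟨Q, hQ⟩ : ∃ Q : ℕ → ℝ, Q = fun N : ℕ =>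
    (((Ico 1 l).filter (fun i => (Y:ℤ) < -JJ c m i ∧ -JJ c m i ≤ (N:ℤ))).card : ℝ) := ⟨_, rfl⟩
  have hPQ : ∀ N, Y < N → 2 * N < m → |P N - Q N| ≤ 2 * (C * E * √N) := by
    intro N hN h2N
    rcases Nat.eq_zero_or_pos l with h0 | hl1
    · rw [hP, hQ, h0]
      simp only [Finset.Ico_eq_empty (by omega : ¬ (1 < 0)), Finset.filter_empty,
        Finset.card_empty, Nat.cast_zero, sub_self, abs_zero]
      positivity
    have hlR : (1:ℝ) ≤ l := by exact_mod_cast hl1
    have hlm : (l:ℝ) ≤ m := by exact_mod_cast hl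
    have hNs : √((N - Y : ℕ) : ℝ) ≤ √(N : ℝ) :=
      Real.sqrt_le_sqrt (by exact_mod_cast Nat.sub_le N Y)
    have hu0 : (0:ℝ) ≤ 1 / m := by positivity
    have huv : (1:ℝ) / m ≤ l / m := div_le_div_of_nonneg_right hlR hmR.le
    have hv1 : (l:ℝ) / m ≤ 1 := by rw [div_le_one hmR]; exact hlm
    have e1 := hcnt E m (u / m) hE hbad' ((Y:ℤ) + 1) (N - Y) (by omega) (by omega) 0 (1 / m)
      (l / m) hu0 huv hv1
    have e2 := hcnt E m (u / m) hE hbad' (-(N:ℤ)) (N - Y) (by omega) (by omega) 0 (1 / m)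
      (l / m) hu0 huv hv1
    have b1 : ((Y:ℤ) + 1) + ((N - Y : ℕ) : ℤ) = N + 1 := by omega
    have b2 : -(N:ℤ) + ((N - Y : ℕ) : ℤ) = -Y := by omega
    rw [b1, ← card_JJ m c u hm (-v) hk l hl _ _ (by omega) (by omega)] at e1
    rw [b2, ← card_JJ m c u hm (-v) hk l hl _ _ (by omega) (by omega)] at e2
    have c1 : P N = (((Ico 1 l).filter (fun i => (Y:ℤ) + 1 ≤ JJ c m i ∧
        JJ c m i < (N:ℤ) + 1)).card : ℝ) := by
      rw [hP]
      simp only
      congr 2
      apply Finset.filter_congr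
      intro i _
      omega
    have c2 : Q N = (((Ico 1 l).filter (fun i => -(N:ℤ) ≤ JJ c m i ∧
        JJ c m i < -(Y:ℤ))).card : ℝ) := by
      rw [hQ]
      simp only
      congr 2
      apply Finset.filter_congr
      intro i _
      omega
    rw [← c1] at e1
    rw [← c2] at e2
    have hCE : C * E * √((N - Y : ℕ) : ℝ) ≤ C * E * √(N : ℝ) :=
      mul_le_mul_of_nonneg_left hNs (by positivity)
    rw [abs_le] at e1 e2 ⊢
    constructor <;> linarith [e1.1, e1.2, e2.1, e2.2]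
  have hS : ∑ i ∈ (Finset.Ico 1 l).filter (fun i : ℕ => (Y : ℤ) < |JJ c m i|),
      Real.cos (Real.pi * (JJ c m i / m)) / Real.sin (Real.pi * (JJ c m i / m)) =
      ∑ N ∈ Ico (Y + 1) m, (gco m N - gco m (N + 1)) * (P N - Q N) := by
    have s1 : ∑ i ∈ (Finset.Ico 1 l).filter (fun i : ℕ => (Y : ℤ) < |JJ c m i|),
        Real.cos (Real.pi * (JJ c m i / m)) / Real.sin (Real.pi * (JJ c m i / m)) =
        ∑ i ∈ (Finset.Ico 1 l).filter (fun i : ℕ => (Y : ℤ) < JJ c m i),
          gco m (JJ c m i).toNat -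
        ∑ i ∈ (Finset.Ico 1 l).filter (fun i : ℕ => (Y : ℤ) < -JJ c m i),
          gco m (-JJ c m i).toNat := by
      rw [Finset.sum_filter, Finset.sum_filter, Finset.sum_filter, ← Finset.sum_sub_distrib]
      apply Finset.sum_congr rfl
      intro i _
      obtain ⟨hb1, hb2⟩ := JJ_bounds c m i hm
      rcases lt_trichotomy (JJ c m i) 0 with h | h | h
      · rw [abs_of_neg h, if_neg (by omega : ¬ ((Y:ℤ) < JJ c m i))]
        split_ifs with h3
        · rw [f_neg m hm _ (by omega) hb1]; ring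
        · ring
      · rw [h, abs_zero, if_neg (by omega), if_neg (by omega), if_neg (by omega)]; ring
      · rw [abs_of_pos h, if_neg (by omega : ¬ ((Y:ℤ) < -JJ c m i))]
        split_ifs with h3
        · rw [f_pos m _ (by omega) hb2]; ring
        · ring
    rw [s1, tel m Y (Ico 1 l) (fun i => JJ c m i) (fun i _ => by
        have := (JJ_bounds c m i hm).2
        omega),
      tel m Y (Ico 1 l) (fun i => -JJ c m i) (fun i _ => by
        have := (JJ_bounds c m i hm).1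
        omega), ← Finset.sum_sub_distrib]
    apply Finset.sum_congr rfl
    intro N _
    rw [hP, hQ]
    ring
  rw [hS]
  calc |∑ N ∈ Ico (Y + 1) m, (gco m N - gco m (N + 1)) * (P N - Q N)|
      ≤ ∑ N ∈ Ico (Y + 1) m, |(gco m N - gco m (N + 1)) * (P N - Q N)| :=
        Finset.abs_sum_le_sum_abs _ _
    _ ≤ ∑ N ∈ Ico (Y + 1) m, (Real.pi * C * E * m / 2) * (1 / ((N:ℝ) * √N)) := by
        apply Finset.sum_le_sum
        intro N hN
        rw [Finset.mem_Ico] at hN
        have hNR : (1:ℝ) ≤ N := by exact_mod_cast (by omega : 1 ≤ N)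
        have hsq : √(N:ℝ) ^ 2 = N := Real.sq_sqrt (by linarith)
        have hsp : 0 < √(N:ℝ) := Real.sqrt_pos.mpr (by linarith)
        rcases lt_or_ge (2 * N) m with h | h
        · rw [abs_mul]
          calc |gco m N - gco m (N + 1)| * |P N - Q N|
              ≤ (Real.pi * m / (4 * N ^ 2)) * (2 * (C * E * √N)) :=
                mul_le_mul (gco_diff (by omega) h) (hPQ N (by omega) h) (abs_nonneg _)
                  (by positivity)
            _ = (Real.pi * C * E * m / 2) * (1 / ((N:ℝ) * √N)) := by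
                have : (N:ℝ) ^ 2 = N * √(N:ℝ) ^ 2 := by rw [hsq]; ring
                rw [this]
                field_simp
                ring
        · rw [gco_zero h, gco_zero (by omega : m ≤ 2 * (N + 1))]
          simp only [sub_self, zero_mul, abs_zero]
          positivity
    _ = (Real.pi * C * E * m / 2) * ∑ N ∈ Ico (Y + 1) m, (1 / ((N:ℝ) * √N)) := by
        rw [Finset.mul_sum]
    _ ≤ (Real.pi * C * E * m / 2) * (2 / √Y) :=
        mul_le_mul_of_nonneg_left (sum_inv Y m hY) (by positivity)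
    _ = Real.pi * C * E * m / √Y := by ring

end Pool.Agent.Y694.RR
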